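import Pool.Agent.Helper13_FK.Stmts
import Pool.Agent.Helper5_Frey.Rankin

/-!
# Squad FK, module LC: the part of the values composed of the primes dividing `2 a Δ`
-/

namespace Pool.Agent.FK.H29

open Polynomial

/-- A minimal divisor which is larger than `Y` is a prime or at most `Y ^ 2`. -/
lemma exists_min_div (D : ℕ) (hD : D ≠ 0) (Y : ℝ) (hY : 1 ≤ Y) (h : Y < D) :
    ∃ m : ℕ, m ∣ D ∧ Y < m ∧ ((m : ℝ) ≤ Y ^ 2 ∨ m.Prime) := by
  classical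
  have hex : ∃ m : ℕ, m ∣ D ∧ Y < m := ⟨D, dvd_rfl, h⟩
  obtain ⟨m, hm⟩ : ∃ m, m = Nat.find hex := ⟨_, rfl⟩
  have hs : m ∣ D ∧ Y < m := by
    rw [hm]
    exact Nat.find_spec hex
  have hmin : ∀ k : ℕ, k ∣ D → k < m → (k : ℝ) ≤ Y := by
    intro k hk hkm
    by_contra hc
    rw [hm] at hkm
    exact Nat.find_min hex hkm ⟨hk, not_le.mp hc⟩
  refine ⟨m, hs.1, hs.2, ?_⟩
  by_cases hp : m.Prime
  · exact Or.inr hp
  left
  have hm1 : m ≠ 1 := by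
    intro h1
    have h2 := hs.2
    rw [h1, Nat.cast_one] at h2
    linarith
  have hm0 : m ≠ 0 := by
    intro h0
    have h2 := hs.1
    rw [h0] at h2
    exact hD (zero_dvd_iff.mp h2)
  obtain ⟨p, hpp, k, hk⟩ := Nat.exists_prime_and_dvd hm1
  have hk1 : k ≠ 1 := by
    intro h1
    rw [h1, mul_one] at hk
    exact hp (hk ▸ hpp)
  have hk0 : k ≠ 0 := by
    intro h0
    rw [h0, mul_zero] at hk
    exact hm0 hk
  have hpm : p < m := by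
    rw [hk]
    have : 2 ≤ k := by omega
    nlinarith [hpp.pos]
  have hkm : k < m := by
    rw [hk]
    have : 2 ≤ p := hpp.two_le
    have : 0 < k := Nat.pos_of_ne_zero hk0
    nlinarith
  have h1 : (p : ℝ) ≤ Y := hmin p ((Dvd.intro k hk.symm).trans hs.1) hpm
  have h2 : (k : ℝ) ≤ Y := hmin k ((Dvd.intro_left p hk.symm).trans hs.1) hkm
  rw [hk]
  push_cast
  have hp0 : (0 : ℝ) ≤ p := Nat.cast_nonneg p
  have hk0' : (0 : ℝ) ≤ k := Nat.cast_nonneg k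
  nlinarith

/-- LC for `δ' ≤ 1`. -/
lemma lc_aux (h1 : L1Stmt) (d : ℕ) (a : ℤ) (C₁ : ℝ) (c : ℕ) (δ' : ℝ) (hd : 1 ≤ d) (ha : a ≠ 0)
    (hδ : 0 < δ') (hδ1 : δ' ≤ 1) :
    ∃ η : ℝ, 0 < η ∧ ∃ C : ℝ, ∀ (H : ℕ) (Φ : ℤ[X]) (Δ : ℤ), 1 ≤ H → LP d a C₁ c H Φ Δ →
    ({t : ℕ | t < H ∧ Φ.eval (t : ℤ) ≠ 0 ∧ (H : ℝ) ^ δ' <
      ((∏ p ∈ (Φ.eval (t : ℤ)).natAbs.primeFactors.filter (fun p => p ∣ (2 * a * Δ).natAbs),
        p ^ (Φ.eval (t : ℤ)).natAbs.factorization p : ℕ) : ℝ)}.ncard : ℝ) ≤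
          C * (H : ℝ) ^ (1 - η) := by
  classical
  obtain ⟨C1, hC1⟩ := h1 d a hd ha
  set γ : ℝ := 2 / ((d : ℝ) * (d + 1)) with hγ
  have hd1 : (1 : ℝ) ≤ d := by exact_mod_cast hd
  have hγ0 : 0 < γ := by positivity
  have hγ1 : γ ≤ 1 := by
    rw [hγ, div_le_one (by positivity)]
    nlinarith
  set β : ℝ := δ' * γ with hβ
  have hβ0 : 0 < β := by positivity
  have hβ1 : β ≤ 1 := by
    rw [hβ]
    nlinarith
  set ε : ℝ := β / (2 * (2 * c + 2)) with hε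
  have hε0 : 0 < ε := by positivity
  obtain ⟨C2, hC2, hrank⟩ := Helper5Frey.rankin_smooth hε0
  set A : ℝ := |(2 * a : ℝ)| * |C₁| with hA
  have hA0 : 0 ≤ A := by positivity
  refine ⟨β / 2, by positivity, (C2 * (A ^ 2) ^ ε) * (|C1| * 2), ?_⟩
  intro H Φ Δ hH hLP
  have hH1 : (1 : ℝ) ≤ H := by exact_mod_cast hH
  have hH0 : (0 : ℝ) < H := by linarith
  set M : ℕ := (2 * a * Δ).natAbs with hM
  have hM0 : M ≠ 0 := by
    rw [hM, Int.natAbs_ne_zero]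
    exact mul_ne_zero (mul_ne_zero two_ne_zero ha) hLP.ne
  have hMA : (M : ℝ) ≤ A * (H : ℝ) ^ c := by
    rw [hM, Nat.cast_natAbs]
    push_cast
    rw [abs_mul, hA, mul_assoc]
    apply mul_le_mul_of_nonneg_left _ (abs_nonneg _)
    refine hLP.bd.trans ?_
    gcongr
    exact le_abs_self _
  set Y : ℝ := (H : ℝ) ^ δ' with hY
  have hY1 : 1 ≤ Y := Real.one_le_rpow hH1 hδ.le
  have hYH : Y ≤ H := by
    calc Y ≤ (H : ℝ) ^ (1 : ℝ) := Real.rpow_le_rpow_of_exponent_le hH1 hδ1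
      _ = H := Real.rpow_one _
  set F : Finset ℕ := (Finset.Icc 1 (M * H ^ 2)).filter
    (fun m => m.primeFactors ⊆ M.primeFactors) with hF
  set F' : Finset ℕ := F.filter (fun m => Y < (m : ℝ)) with hF'
  have hsub : {t : ℕ | t < H ∧ Φ.eval (t : ℤ) ≠ 0 ∧ Y <
      ((∏ p ∈ (Φ.eval (t : ℤ)).natAbs.primeFactors.filter (fun p => p ∣ M),
        p ^ (Φ.eval (t : ℤ)).natAbs.factorization p : ℕ) : ℝ)} ⊆
      ⋃ m ∈ F', {t : ℕ | t < H ∧ (m : ℤ) ∣ Φ.eval (t : ℤ)} := by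
    rintro t ⟨htH, hne, hlt⟩
    set N : ℕ := (Φ.eval (t : ℤ)).natAbs with hN
    have hN0 : N ≠ 0 := by rwa [hN, Int.natAbs_ne_zero]
    set D : ℕ := ∏ p ∈ N.primeFactors.filter (fun p => p ∣ M), p ^ N.factorization p with hDdef
    have hDN : D ∣ N := by
      have h2 : N = ∏ p ∈ N.primeFactors, p ^ N.factorization p := by
        exact (Nat.prod_factorization_pow_eq_self hN0).symm
      conv_rhs => rw [h2]
      exact Finset.prod_dvd_prod_of_subset _ _ _ (Finset.filter_subset _ _)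
    have hD0 : D ≠ 0 := by
      intro h0
      rw [h0] at hDN
      exact hN0 (zero_dvd_iff.mp hDN)
    obtain ⟨m, hmD, hYm, hm⟩ := exists_min_div D hD0 Y hY1 hlt
    have hm0 : m ≠ 0 := by
      rintro rfl
      exact hD0 (zero_dvd_iff.mp hmD)
    have hpf : ∀ p : ℕ, p.Prime → p ∣ m → p ∣ M := by
      intro p hp hpm
      have hpD : p ∣ D := hpm.trans hmD
      rw [hDdef, Prime.dvd_finsetProd_iff hp.prime] at hpD
      obtain ⟨q, hq, hpq⟩ := hpD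
      rw [Finset.mem_filter] at hq
      have hq' := Nat.prime_of_mem_primeFactors hq.1
      have : p = q := (Nat.prime_dvd_prime_iff_eq hp hq').mp (hp.dvd_of_dvd_pow hpq)
      rw [this]
      exact hq.2
    rw [Set.mem_iUnion₂]
    refine ⟨m, ?_, htH, ?_⟩
    · rw [hF', Finset.mem_filter, hF, Finset.mem_filter, Finset.mem_Icc]
      refine ⟨⟨⟨by omega, ?_⟩, ?_⟩, hYm⟩
      · rcases hm with hm | hm
        · have h3 : (m : ℝ) ≤ ((M * H ^ 2 : ℕ) : ℝ) := by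
            push_cast
            have hM1 : (1 : ℝ) ≤ M := by exact_mod_cast Nat.one_le_iff_ne_zero.mpr hM0
            calc (m : ℝ) ≤ Y ^ 2 := hm
              _ ≤ (H : ℝ) ^ 2 := by gcongr
              _ = 1 * (H : ℝ) ^ 2 := by ring
              _ ≤ M * (H : ℝ) ^ 2 := by gcongr
          exact_mod_cast h3
        · calc m ≤ M := Nat.le_of_dvd (Nat.pos_of_ne_zero hM0) (hpf m hm dvd_rfl)
            _ = M * 1 := by ring
            _ ≤ M * H ^ 2 := Nat.mul_le_mul_left _ (Nat.one_le_pow _ _ hH)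
      · intro p hp
        rw [Nat.mem_primeFactors] at hp ⊢
        exact ⟨hp.1, hpf p hp.1 hp.2.1, hM0⟩
    · have h4 : m ∣ N := hmD.trans hDN
      rw [← Int.natAbs_dvd_natAbs, Int.natAbs_natCast]
      exact h4
  have hfin : ∀ m : ℕ, {t : ℕ | t < H ∧ (m : ℤ) ∣ Φ.eval (t : ℤ)}.Finite := fun m =>
    (Set.finite_lt_nat H).subset fun t ht => ht.1
  have hfin2 : (⋃ m ∈ F', {t : ℕ | t < H ∧ (m : ℤ) ∣ Φ.eval (t : ℤ)}).Finite :=
    (Set.finite_lt_nat H).subset (by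
      intro t ht
      rw [Set.mem_iUnion₂] at ht
      obtain ⟨m, _, hm⟩ := ht
      exact hm.1)
  have hunion : (⋃ m ∈ F', {t : ℕ | t < H ∧ (m : ℤ) ∣ Φ.eval (t : ℤ)}).ncard ≤
      ∑ m ∈ F', {t : ℕ | t < H ∧ (m : ℤ) ∣ Φ.eval (t : ℤ)}.ncard := by
    have key : ∀ G : Finset ℕ, (⋃ m ∈ G, {t : ℕ | t < H ∧ (m : ℤ) ∣ Φ.eval (t : ℤ)}).ncard ≤
        ∑ m ∈ G, {t : ℕ | t < H ∧ (m : ℤ) ∣ Φ.eval (t : ℤ)}.ncard := by
      intro G
      induction G using Finset.induction_on with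
      | empty => simp
      | insert x s hx ih =>
        rw [Finset.set_biUnion_insert, Finset.sum_insert hx]
        exact (Set.ncard_union_le _ _).trans (Nat.add_le_add_left ih _)
    exact key F'
  have hone : ∀ m ∈ F', ({t : ℕ | t < H ∧ (m : ℤ) ∣ Φ.eval (t : ℤ)}.ncard : ℝ) ≤
      |C1| * (2 * (H : ℝ) ^ (1 - β)) := by
    intro m hm
    rw [hF', Finset.mem_filter, hF, Finset.mem_filter, Finset.mem_Icc] at hm
    have hm0 : (0 : ℝ) < m := by linarith [hm.2]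
    have h5 := hC1 Φ hLP.deg hLP.lc m H hm.1.1.1 hH
    have h6 : (m : ℝ) ^ (-γ) ≤ (H : ℝ) ^ (-β) := by
      calc (m : ℝ) ^ (-γ) ≤ Y ^ (-γ) :=
            Real.rpow_le_rpow_of_nonpos (by linarith) hm.2.le (by linarith)
        _ = (H : ℝ) ^ (-β) := by
            rw [hY, ← Real.rpow_mul hH0.le, hβ]
            ring_nf
    have h7 : (H : ℝ) * (m : ℝ) ^ (-γ) ≤ (H : ℝ) ^ (1 - β) := by
      calc (H : ℝ) * (m : ℝ) ^ (-γ) ≤ (H : ℝ) * (H : ℝ) ^ (-β) := by gcongr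
        _ = (H : ℝ) ^ (1 - β) := by
            rw [sub_eq_add_neg, Real.rpow_add hH0, Real.rpow_one]
    have h8 : (1 : ℝ) ≤ (H : ℝ) ^ (1 - β) := Real.one_le_rpow hH1 (by linarith)
    calc _ ≤ C1 * (1 + (H : ℝ) * (m : ℝ) ^ (-γ)) := h5
      _ ≤ |C1| * (1 + (H : ℝ) * (m : ℝ) ^ (-γ)) := by
          gcongr
          exact le_abs_self _
      _ ≤ |C1| * (2 * (H : ℝ) ^ (1 - β)) := by
          gcongr
          linarith
  have hcard : (F'.card : ℝ) ≤ (C2 * (A ^ 2) ^ ε) * (H : ℝ) ^ (β / 2) := by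
    have h9 : (F'.card : ℝ) ≤ (F.card : ℝ) := by
      exact_mod_cast Finset.card_le_card (Finset.filter_subset _ _)
    have h10 := hrank (M * H ^ 2) M (Nat.one_le_iff_ne_zero.mpr hM0)
    have h11 : (((M * H ^ 2 : ℕ) : ℝ) * M) ≤ A ^ 2 * (H : ℝ) ^ (2 * c + 2) := by
      push_cast
      have hMn : (0 : ℝ) ≤ M := Nat.cast_nonneg M
      calc (M : ℝ) * (H : ℝ) ^ 2 * M = (M : ℝ) ^ 2 * (H : ℝ) ^ 2 := by ring
        _ ≤ (A * (H : ℝ) ^ c) ^ 2 * (H : ℝ) ^ 2 := by gcongr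
        _ = A ^ 2 * (H : ℝ) ^ (2 * c + 2) := by ring
    have h12 : ((((M * H ^ 2 : ℕ) : ℝ) * M)) ^ ε ≤ (A ^ 2) ^ ε * (H : ℝ) ^ (β / 2) := by
      calc ((((M * H ^ 2 : ℕ) : ℝ) * M)) ^ ε ≤ (A ^ 2 * (H : ℝ) ^ (2 * c + 2)) ^ ε := by
            apply Real.rpow_le_rpow _ h11 hε0.le
            positivity
        _ = (A ^ 2) ^ ε * ((H : ℝ) ^ (2 * c + 2)) ^ ε := by
            rw [Real.mul_rpow (by positivity) (by positivity)]
        _ = (A ^ 2) ^ ε * (H : ℝ) ^ (β / 2) := by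
            rw [← Real.rpow_natCast (H : ℝ) (2 * c + 2), ← Real.rpow_mul hH0.le, hε]
            push_cast
            rw [show (2 * (c : ℝ) + 2) * (β / (2 * (2 * c + 2))) = β / 2 by
              have : (2 * (c : ℝ) + 2) ≠ 0 := by positivity
              field_simp]
    calc (F'.card : ℝ) ≤ (F.card : ℝ) := h9
      _ ≤ C2 * (((M * H ^ 2 : ℕ) : ℝ) * M) ^ ε := h10
      _ ≤ C2 * ((A ^ 2) ^ ε * (H : ℝ) ^ (β / 2)) := by gcongr
      _ = _ := by ring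
  calc ({t : ℕ | t < H ∧ Φ.eval (t : ℤ) ≠ 0 ∧ Y <
      ((∏ p ∈ (Φ.eval (t : ℤ)).natAbs.primeFactors.filter (fun p => p ∣ M),
        p ^ (Φ.eval (t : ℤ)).natAbs.factorization p : ℕ) : ℝ)}.ncard : ℝ)
      ≤ ((⋃ m ∈ F', {t : ℕ | t < H ∧ (m : ℤ) ∣ Φ.eval (t : ℤ)}).ncard : ℝ) := by
        exact_mod_cast Set.ncard_le_ncard hsub hfin2
    _ ≤ ((∑ m ∈ F', {t : ℕ | t < H ∧ (m : ℤ) ∣ Φ.eval (t : ℤ)}.ncard : ℕ) : ℝ) := by
        exact_mod_cast hunion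
    _ = ∑ m ∈ F', ({t : ℕ | t < H ∧ (m : ℤ) ∣ Φ.eval (t : ℤ)}.ncard : ℝ) := by push_cast; rfl
    _ ≤ ∑ _m ∈ F', |C1| * (2 * (H : ℝ) ^ (1 - β)) := Finset.sum_le_sum hone
    _ = (F'.card : ℝ) * (|C1| * (2 * (H : ℝ) ^ (1 - β))) := by
        rw [Finset.sum_const, nsmul_eq_mul]
    _ ≤ ((C2 * (A ^ 2) ^ ε) * (H : ℝ) ^ (β / 2)) * (|C1| * (2 * (H : ℝ) ^ (1 - β))) := by
        gcongr
    _ = (C2 * (A ^ 2) ^ ε) * (|C1| * 2) * ((H : ℝ) ^ (β / 2) * (H : ℝ) ^ (1 - β)) := by ring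
    _ = (C2 * (A ^ 2) ^ ε) * (|C1| * 2) * (H : ℝ) ^ (1 - β / 2) := by
        rw [← Real.rpow_add hH0]
        congr 2
        ring

/-- LC: the part composed of the primes dividing `2 a Δ`. -/
theorem lc (h1 : L1Stmt) : LcStmt := by
  intro d a C₁ c δ' hd ha hδ
  obtain ⟨η, hη, C, hC⟩ := lc_aux h1 d a C₁ c (min δ' 1) hd ha (lt_min hδ one_pos)
    (min_le_right _ _)
  refine ⟨η, hη, C, ?_⟩
  intro H Φ Δ hH hLP
  refine le_trans ?_ (hC H Φ Δ hH hLP)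
  have hH1 : (1 : ℝ) ≤ H := by exact_mod_cast hH
  have hle : (H : ℝ) ^ min δ' 1 ≤ (H : ℝ) ^ δ' :=
    Real.rpow_le_rpow_of_exponent_le hH1 (min_le_left _ _)
  have hs := Set.ncard_le_ncard (s := {t : ℕ | t < H ∧ Φ.eval (t : ℤ) ≠ 0 ∧ (H : ℝ) ^ δ' <
      ((∏ p ∈ (Φ.eval (t : ℤ)).natAbs.primeFactors.filter (fun p => p ∣ (2 * a * Δ).natAbs),
        p ^ (Φ.eval (t : ℤ)).natAbs.factorization p : ℕ) : ℝ)})
    (t := {t : ℕ | t < H ∧ Φ.eval (t : ℤ) ≠ 0 ∧ (H : ℝ) ^ min δ' 1 <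
      ((∏ p ∈ (Φ.eval (t : ℤ)).natAbs.primeFactors.filter (fun p => p ∣ (2 * a * Δ).natAbs),
        p ^ (Φ.eval (t : ℤ)).natAbs.factorization p : ℕ) : ℝ)})
    (fun t ht => ⟨ht.1, ht.2.1, lt_of_le_of_lt hle ht.2.2⟩)
    ((Set.finite_lt_nat H).subset fun t ht => ht.1)
  exact_mod_cast hs

end Pool.Agent.FK.H29
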